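import Pool.Agent.H434Z.LocDefs
import Pool.Agent.H434Z.LocGrp

set_option autoImplicit false

namespace Pool.Agent.Results.MP_cac0a5_al.IntoMonoids

open Pool.Agent.H434Z.Loc (ClLoc MonLoc IsLatticeEmb)

/-- On a countably infinite discrete set, the lattice of local clones embeds as a lattice into the
lattice of local transformation monoids. -/
theorem result (X : Type) [Countable X] [Infinite X] [TopologicalSpace X] [DiscreteTopology X] :
    ∃ Φ : ClLoc X → MonLoc X, IsLatticeEmb Φ :=
  Pool.Agent.H434Z.Loc.main_mon X

end Pool.Agent.Results.MP_cac0a5_al.IntoMonoids
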